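import Mathlib

/-! Newton interpolation with values in an additive subgroup. -/

namespace Pool.H80.CM

open Polynomial Finset

variable {K : Type*} [Field K] [CharZero K]

/-- The polynomial `binom(X, j)`. -/
noncomputable def bp (K : Type*) [Field K] (j : ℕ) : K[X] :=
  C ((j.factorial : K)⁻¹) * descPochhammer K j

omit [CharZero K] in
theorem bp_zero : bp K 0 = 1 := by simp [bp]

theorem bp_natDegree (j : ℕ) : (bp K j).natDegree = j := by
  rw [bp, natDegree_C_mul (inv_ne_zero (by exact_mod_cast j.factorial_ne_zero)),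
    descPochhammer_natDegree]

theorem bp_eval (j m : ℕ) : (bp K j).eval (m : K) = (m.choose j : K) := by
  rw [bp, eval_mul, eval_C, descPochhammer_eval_eq_descFactorial, Nat.descFactorial_eq_factorial_mul_choose]
  have : (j.factorial : K) ≠ 0 := by exact_mod_cast j.factorial_ne_zero
  push_cast
  field_simp

theorem bp_shift (j : ℕ) : (bp K (j + 1)).comp (X - 1) = bp K (j + 1) - (bp K j).comp (X - 1) := by
  have h1 : (((j + 1).factorial : ℕ) : K) ≠ 0 := by exact_mod_cast (j + 1).factorial_ne_zero
  have h2 : ((j.factorial : ℕ) : K) ≠ 0 := by exact_mod_cast j.factorial_ne_zero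
  rw [bp, bp, mul_comp, mul_comp, C_comp, C_comp, descPochhammer_succ_comp_X_sub_one, mul_sub]
  congr 1
  rw [smul_eq_mul, ← mul_assoc]
  congr 1
  have : (C ((((j + 1).factorial : ℕ) : K)⁻¹) * ((j : K[X]) + 1)) = C ((j.factorial : K)⁻¹) := by
    have e : ((j : K[X]) + 1) = C ((j : K) + 1) := by simp
    rw [e, ← C_mul]
    congr 1
    rw [Nat.factorial_succ]
    push_cast
    have : (j : K) + 1 ≠ 0 := by exact_mod_cast j.succ_ne_zero
    field_simp
  exact this

/-- Newton interpolation at `0, .., B`. -/
theorem newt0 (A : AddSubgroup K) (B : ℕ) (V : K[X]) (hd : V.natDegree ≤ B)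
    (hv : ∀ m ≤ B, V.eval (m : K) ∈ A) :
    ∃ a : ℕ → K, (∀ j ≤ B, a j ∈ A) ∧ V = ∑ j ∈ range (B + 1), C (a j) * bp K j := by
  classical
  set f : ℕ → K := fun m => V.eval (m : K) with hf
  refine ⟨fun k => (fwdDiff 1)^[k] f 0, ?_, ?_⟩
  · intro k hk
    change (fwdDiff 1)^[k] f 0 ∈ A
    rw [fwdDiff_iter_eq_sum_shift]
    refine A.sum_mem fun i hi => ?_
    refine A.zsmul_mem ?_ _
    have := mem_range.mp hi
    simpa [hf] using hv i (by omega)
  · have hinj : Function.Injective (fun m : ℕ => (m : K)) := Nat.cast_injective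
    refine eq_of_degrees_lt_of_eval_finset_eq ((range (B + 1)).image fun m : ℕ => (m : K)) ?_ ?_ ?_
    · rw [card_image_of_injective _ hinj, card_range]
      exact lt_of_le_of_lt degree_le_natDegree (by exact_mod_cast Nat.lt_succ_of_le hd)
    · rw [card_image_of_injective _ hinj, card_range]
      refine lt_of_le_of_lt (degree_sum_le _ _) ?_
      rw [Finset.sup_lt_iff (by exact_mod_cast WithBot.bot_lt_coe _)]
      intro j hj
      have := mem_range.mp hj
      refine lt_of_le_of_lt degree_le_natDegree ?_
      have h2 : (C ((fwdDiff 1)^[j] f 0) * bp K j).natDegree ≤ j :=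
        (natDegree_C_mul_le _ _).trans (bp_natDegree j).le
      exact_mod_cast lt_of_le_of_lt h2 this
    · intro x hx
      obtain ⟨m, hm, rfl⟩ := mem_image.mp hx
      have hm' := mem_range.mp hm
      rw [eval_finsetSum]
      simp only [eval_mul, eval_C, bp_eval]
      have h := shift_eq_sum_fwdDiff_iter 1 f m 0
      rw [zero_add, smul_eq_mul, mul_one] at h
      change f m = _
      rw [h]
      rw [← Finset.sum_subset (Finset.range_subset_range.mpr (Nat.succ_le_of_lt hm'))]
      · refine Finset.sum_congr rfl fun i _ => ?_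
        rw [nsmul_eq_mul, mul_comm]
      · intro i _ hi
        have : m < i := by
          by_contra hcon
          exact hi (mem_range.mpr (by omega))
        rw [Nat.choose_eq_zero_of_lt this, Nat.cast_zero, mul_zero]

theorem bp_shift_sum (A : AddSubgroup K) (j : ℕ) (c : K) (hc : c ∈ A) :
    ∃ a : ℕ → K, (∀ l ≤ j, a l ∈ A) ∧
      C c * (bp K j).comp (X - 1) = ∑ l ∈ range (j + 1), C (a l) * bp K l := by
  induction j with
  | zero =>
    refine ⟨fun _ => c, fun _ _ => hc, ?_⟩
    simp [bp_zero]
  | succ j ih =>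
    obtain ⟨a, ha, he⟩ := ih
    refine ⟨fun l => if l = j + 1 then c else - a l, fun l hl => ?_, ?_⟩
    · by_cases h : l = j + 1
      · simpa [h] using hc
      · simpa [h] using A.neg_mem (ha l (by omega))
    · rw [bp_shift, mul_sub, he, Finset.sum_range_succ _ (j + 1)]
      simp only [if_true]
      rw [sub_eq_add_neg, add_comm, ← Finset.sum_neg_distrib]
      congr 1
      refine Finset.sum_congr rfl fun l hl => ?_
      have := mem_range.mp hl
      rw [if_neg (by omega)]
      simp

/-- Newton interpolation at `1, .., B + 1`. -/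
theorem newt1 (A : AddSubgroup K) (B : ℕ) (W : K[X]) (hd : W.natDegree ≤ B)
    (hv : ∀ m : ℕ, 1 ≤ m → m ≤ B + 1 → W.eval (m : K) ∈ A) :
    ∃ a : ℕ → K, (∀ j ≤ B, a j ∈ A) ∧ W = ∑ j ∈ range (B + 1), C (a j) * bp K j := by
  obtain ⟨b, hb, he⟩ := newt0 A B (W.comp (X + 1)) (by
    rw [natDegree_comp]
    have : (X + 1 : K[X]).natDegree = 1 := natDegree_X_add_C 1
    rw [this, mul_one]
    exact hd) (by
    intro m hm
    rw [eval_comp]
    have := hv (m + 1) (by omega) (by omega)
    simpa using this)
  have hW : W = ∑ j ∈ range (B + 1), C (b j) * (bp K j).comp (X - 1) := by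
    have h2 : (W.comp (X + 1)).comp (X - 1) = W := by
      rw [comp_assoc]
      simp
    have h3 := congrArg (compRingHom (X - 1 : K[X])) he
    rw [map_sum] at h3
    simp only [coe_compRingHom_apply, mul_comp, C_comp] at h3
    rw [← h2]
    exact h3
  have hex : ∀ j ∈ range (B + 1), ∃ a : ℕ → K, (∀ l ≤ j, a l ∈ A) ∧
      C (b j) * (bp K j).comp (X - 1) = ∑ l ∈ range (j + 1), C (a l) * bp K l :=
    fun j hj => bp_shift_sum A j (b j) (hb j (Nat.lt_succ_iff.mp (mem_range.mp hj)))
  choose! a ha hae using hex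
  refine ⟨fun l => ∑ j ∈ (range (B + 1)).filter (fun j => l ≤ j), a j l, ?_, ?_⟩
  · intro l _
    refine A.sum_mem fun j hj => ?_
    have := mem_filter.mp hj
    exact ha j this.1 l this.2
  · rw [hW]
    calc ∑ j ∈ range (B + 1), C (b j) * (bp K j).comp (X - 1)
        = ∑ j ∈ range (B + 1), ∑ l ∈ range (B + 1), if l ≤ j then C (a j l) * bp K l else 0 := by
          refine Finset.sum_congr rfl fun j hj => ?_
          rw [hae j hj, ← Finset.sum_filter]
          refine Finset.sum_congr ?_ fun _ _ => rfl
          ext l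
          have := mem_range.mp hj
          simp only [mem_range, mem_filter]
          omega
      _ = ∑ l ∈ range (B + 1), ∑ j ∈ range (B + 1), if l ≤ j then C (a j l) * bp K l else 0 :=
          Finset.sum_comm
      _ = _ := by
          refine Finset.sum_congr rfl fun l _ => ?_
          rw [← Finset.sum_filter, map_sum, Finset.sum_mul]

end Pool.H80.CM
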