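import Mathlib

/-! Windows of values of a monic polynomial: a divisibility statement. -/

namespace Pool.H80.CM

open Polynomial Finset

/-- `p` is a prime number, not zero and not a unit in `O`, and every element of `O` not
divisible by `p` is a unit. -/
structure Loc (O : Type*) [CommRing O] (p : ℕ) : Prop where
  pr : p.Prime
  ne : (p : O) ≠ 0
  nu : ¬ IsUnit (p : O)
  mx : ∀ x : O, ¬ (p : O) ∣ x → IsUnit x

variable {O : Type*} [CommRing O] [IsDomain O] {p : ℕ}

omit [IsDomain O] in
theorem Loc.int (h : Loc O p) {d : ℤ} (hd : ¬ (p : ℤ) ∣ d) : ¬ (p : O) ∣ (d : O) := by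
  rintro ⟨c, hc⟩
  have hco : IsCoprime (p : ℤ) d := (Nat.prime_iff_prime_int.mp h.pr).coprime_iff_not_dvd.mpr hd
  obtain ⟨a, b, hab⟩ := hco
  apply h.nu
  have : (a : O) * p + b * d = 1 := by exact_mod_cast congrArg (Int.cast : ℤ → O) hab
  refine IsUnit.of_mul_eq_one (a + b * c) ?_
  rw [hc] at this
  linear_combination this

omit [IsDomain O] in
theorem Loc.prime (h : Loc O p) : Prime (p : O) := by
  refine ⟨h.ne, h.nu, fun a b hab => ?_⟩
  by_contra hcon
  push Not at hcon
  exact h.nu (isUnit_of_dvd_unit hab ((h.mx a hcon.1).mul (h.mx b hcon.2)))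

omit [IsDomain O] in
/-- A polynomial not divisible by `p` has at most `N` roots modulo `p`. -/
theorem Loc.roots (h : Loc O p) {g : O[X]} (hg : ¬ C (p : O) ∣ g) {N : ℕ}
    (hN : g.natDegree ≤ N) (S : Finset ℤ) (hS : ∀ a ∈ S, ∀ b ∈ S, (p : ℤ) ∣ a - b → a = b)
    (hr : ∀ a ∈ S, (p : O) ∣ g.eval (a : O)) : S.card ≤ N := by
  classical
  set I : Ideal O := Ideal.span {(p : O)} with hI
  have hIp : I.IsPrime := (Ideal.span_singleton_prime h.ne).mpr h.prime
  have : IsDomain (O ⧸ I) := Ideal.Quotient.isDomain I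
  set π : O →+* O ⧸ I := Ideal.Quotient.mk I
  have hmem : ∀ x : O, π x = 0 ↔ (p : O) ∣ x := fun x => by
    rw [Ideal.Quotient.eq_zero_iff_mem, Ideal.mem_span_singleton]
  have hne : g.map π ≠ 0 := by
    intro h0
    apply hg
    rw [C_dvd_iff_dvd_coeff]
    intro i
    rw [← hmem, ← coeff_map, h0, coeff_zero]
  have hinj : Set.InjOn (fun a : ℤ => π (a : O)) (S : Set ℤ) := by
    intro a ha b hb hab
    apply hS a ha b hb
    by_contra hcon
    apply h.int hcon
    rw [← hmem]
    push_cast
    rw [map_sub]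
    exact sub_eq_zero.mpr hab
  have hsub : (S.image fun a : ℤ => π (a : O)).val ⊆ (g.map π).roots := by
    intro x hx
    have hx' : x ∈ S.image fun a : ℤ => π (a : O) := hx
    obtain ⟨a, ha, rfl⟩ := Finset.mem_image.mp hx'
    rw [mem_roots hne, IsRoot.def, eval_map, eval₂_at_apply, hmem]
    exact hr a ha
  have := card_le_degree_of_subset_roots hsub
  rw [Finset.card_image_of_injOn hinj] at this
  exact this.trans ((natDegree_map_le).trans hN)

omit [IsDomain O] in
theorem Loc.content (n : ℕ) : ∀ f : O[X], ¬ C ((p : O) ^ (n + 1)) ∣ f →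
    ∃ κ : ℕ, ∃ g : O[X], f = C ((p : O) ^ κ) * g ∧ ¬ C (p : O) ∣ g := by
  induction n with
  | zero =>
    intro f hf
    rw [zero_add, pow_one] at hf
    exact ⟨0, f, by simp, hf⟩
  | succ n ih =>
    intro f hf
    by_cases h : C (p : O) ∣ f
    · obtain ⟨f', rfl⟩ := h
      obtain ⟨κ, g, hg, hg'⟩ := ih f' (fun hcon => hf (by
        rw [pow_succ' (p : O) (n + 1), C_mul]
        exact mul_dvd_mul_left _ hcon))
      exact ⟨κ + 1, g, by rw [hg, pow_succ' (p : O) κ, C_mul]; ring, hg'⟩
    · exact ⟨0, f, by simp, h⟩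

/-- One residue class. -/
theorem Loc.cls (h : Loc O p) {χ : O[X]} (hχ : χ.Monic) {α : O} {c k : ℕ} (hk : k ≤ p)
    (h1 : ∀ t ∈ range k, χ.eval (α + p * (t : O)) ∣ (p : O) ^ c) (q : ℤ) :
    ∏ t ∈ range k, χ.eval (α + p * (t : O)) ∣
      (p : O) ^ (χ.natDegree * c) * ∏ t ∈ range k, χ.eval (α + p * ((t : O) + (q : O))) := by
  classical
  set f : O[X] := χ.comp (C (p : O) * X + C α) with hf
  have hev : ∀ y : O, f.eval y = χ.eval (α + p * y) := by
    intro y
    rw [hf, eval_comp]
    simp [add_comm]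
  have hlin : (C (p : O) * X + C α : O[X]).natDegree = 1 := natDegree_linear h.ne
  have hdeg : f.natDegree = χ.natDegree := by
    rw [hf, natDegree_comp, hlin, mul_one]
  have hlc : f.coeff χ.natDegree = (p : O) ^ χ.natDegree := by
    have : f.leadingCoeff = (p : O) ^ χ.natDegree := by
      rw [hf, leadingCoeff_comp (by rw [hlin]; exact one_ne_zero), hχ.leadingCoeff, one_mul,
        leadingCoeff_linear h.ne]
    rw [← this, leadingCoeff, hdeg]
  have hnd : ¬ C ((p : O) ^ (χ.natDegree + 1)) ∣ f := by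
    intro hcon
    rw [C_dvd_iff_dvd_coeff] at hcon
    have h2 := hcon χ.natDegree
    rw [hlc, pow_succ] at h2
    obtain ⟨c', hc'⟩ := h2
    apply h.nu
    refine IsUnit.of_mul_eq_one c' ?_
    apply mul_left_cancel₀ (pow_ne_zero χ.natDegree h.ne)
    linear_combination -hc'
  obtain ⟨κ, g, hg, hg'⟩ := Loc.content _ f hnd
  have hevg : ∀ y : O, χ.eval (α + p * y) = (p : O) ^ κ * g.eval y := by
    intro y
    rw [← hev, hg, eval_mul, eval_C]
  have hgdeg : g.natDegree ≤ χ.natDegree := by
    rw [← hdeg, hg, natDegree_C_mul (pow_ne_zero κ h.ne)]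
  have key : ∏ t ∈ range k, g.eval (t : O) ∣ (p : O) ^ (χ.natDegree * c) := by
    set B := (range k).filter fun t : ℕ => (p : O) ∣ g.eval (t : O) with hB
    have hcard : B.card ≤ χ.natDegree := by
      have := h.roots hg' hgdeg (B.image fun t : ℕ => (t : ℤ)) (by
        intro a ha b hb hab
        obtain ⟨a', ha', rfl⟩ := Finset.mem_image.mp ha
        obtain ⟨b', hb', rfl⟩ := Finset.mem_image.mp hb
        have ha2 : a' < p := lt_of_lt_of_le (mem_range.mp (mem_filter.mp ha').1) hk
        have hb2 : b' < p := lt_of_lt_of_le (mem_range.mp (mem_filter.mp hb').1) hk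
        have h3 : (a' : ℤ) % p = (b' : ℤ) % p :=
          Int.emod_eq_emod_iff_emod_sub_eq_zero.mpr (Int.emod_eq_zero_of_dvd hab)
        rw [Int.emod_eq_of_lt (by positivity) (by exact_mod_cast ha2),
          Int.emod_eq_of_lt (by positivity) (by exact_mod_cast hb2)] at h3
        exact h3) (by
        intro a ha
        obtain ⟨a', ha', rfl⟩ := Finset.mem_image.mp ha
        have := (mem_filter.mp ha').2
        exact_mod_cast this)
      rwa [Finset.card_image_of_injective _ Nat.cast_injective] at this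
    rw [← Finset.prod_filter_mul_prod_filter_not (range k)
      (fun t : ℕ => (p : O) ∣ g.eval (t : O))]
    have hu : IsUnit (∏ t ∈ (range k).filter (fun t : ℕ => ¬ (p : O) ∣ g.eval (t : O)),
        g.eval (t : O)) := by
      refine Finset.prod_induction _ IsUnit (fun _ _ => IsUnit.mul) isUnit_one ?_
      intro t ht
      exact h.mx _ (mem_filter.mp ht).2
    rw [hu.mul_right_dvd]
    calc ∏ t ∈ B, g.eval (t : O) ∣ ∏ _t ∈ B, (p : O) ^ c := by
          refine Finset.prod_dvd_prod_of_dvd _ _ fun t ht => ?_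
          refine dvd_trans ?_ (h1 t (mem_filter.mp ht).1)
          rw [hevg]
          exact dvd_mul_left _ _
      _ = (p : O) ^ (B.card * c) := by rw [Finset.prod_const, ← pow_mul, mul_comm]
      _ ∣ (p : O) ^ (χ.natDegree * c) := pow_dvd_pow _ (Nat.mul_le_mul_right _ hcard)
  simp only [hevg, Finset.prod_mul_distrib]
  rw [mul_left_comm]
  exact mul_dvd_mul_left _ (dvd_mul_of_dvd_left key _)

theorem prod_window {M : Type*} [CommMonoid M] {p : ℕ} [NeZero p] (k : ℕ) (H : ℕ → M) :
    ∏ i ∈ range (p * k), H i = ∏ b : ZMod p, ∏ t ∈ range k, H (b.val + p * t) := by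
  classical
  rw [← Finset.prod_product' univ (range k) (fun (b : ZMod p) t => H (b.val + p * t))]
  have hp : 0 < p := Nat.pos_of_ne_zero (NeZero.ne p)
  refine Finset.prod_nbij' (fun i => ((i : ZMod p), i / p)) (fun x => x.1.val + p * x.2)
    ?_ ?_ ?_ ?_ ?_
  · intro i hi
    simp only [mem_product, mem_univ, true_and, mem_range]
    exact Nat.div_lt_of_lt_mul (mem_range.mp hi)
  · rintro ⟨b, t⟩ hx
    simp only [mem_product, mem_univ, true_and, mem_range] at hx
    simp only [mem_range]
    have hb := ZMod.val_lt b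
    calc b.val + p * t < p + p * t := by omega
      _ = p * (t + 1) := by ring
      _ ≤ p * k := Nat.mul_le_mul_left _ hx
  · intro i _
    simp only [ZMod.val_natCast]
    exact Nat.mod_add_div i p
  · rintro ⟨b, t⟩ _
    have hb := ZMod.val_lt b
    refine Prod.ext ?_ ?_
    · simp
    · simp only
      rw [Nat.add_mul_div_left _ _ hp, Nat.div_eq_of_lt hb, zero_add]
  · intro i _
    simp only [ZMod.val_natCast]
    rw [Nat.mod_add_div i p]

/-- LEMMA VAL. -/
theorem Loc.val (h : Loc O p) {χ : O[X]} (hχ : χ.Monic) {c k : ℕ} (hk : k ≤ p)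
    (h1 : ∀ i ∈ Icc 1 (p * k), χ.eval (i : O) ∣ (p : O) ^ c) (x : ℤ) :
    ∏ i ∈ Icc 1 (p * k), χ.eval (i : O) ∣
      (p : O) ^ (χ.natDegree * (χ.natDegree * c)) *
        ∏ i ∈ Icc 1 (p * k), χ.eval ((x : O) + (i : O)) := by
  classical
  have : NeZero p := ⟨h.pr.ne_zero⟩
  have hre : ∀ F : ℕ → O, ∏ i ∈ Icc 1 (p * k), F i =
      ∏ b : ZMod p, ∏ t ∈ range k, F (1 + (b.val + p * t)) := by
    intro F
    rw [← prod_window k (fun i => F (1 + i))]
    refine Finset.prod_nbij' (fun i => i - 1) (fun i => 1 + i) ?_ ?_ ?_ ?_ ?_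
    · intro i hi
      have := mem_Icc.mp hi
      exact mem_range.mpr (by omega)
    · intro i hi
      have := mem_range.mp hi
      exact mem_Icc.mpr (by omega)
    · intro i hi
      have := mem_Icc.mp hi
      omega
    · intro i _
      omega
    · intro i hi
      have := mem_Icc.mp hi
      have e : 1 + (i - 1) = i := by omega
      simp only [e]
  set P : ZMod p → O := fun b => ∏ t ∈ range k, χ.eval (((1 + (b.val + p * t) : ℕ)) : O)
    with hP
  set W : ZMod p → O := fun b =>
    ∏ t ∈ range k, χ.eval ((x : O) + ((1 + (b.val + p * t) : ℕ) : O)) with hW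
  set e : ZMod p → ℕ := fun b =>
    if (p : O) ∣ χ.eval ((1 + b.val : ℕ) : O) then χ.natDegree * c else 0 with he
  rw [hre (fun i => χ.eval (i : O)), hre (fun i => χ.eval ((x : O) + (i : O)))]
  change ∏ b, P b ∣ _ * ∏ b, W b
  have hPe : ∀ (b : ZMod p), P b = ∏ t ∈ range k,
      χ.eval (((1 + b.val : ℕ) : O) + p * (t : O)) := by
    intro b
    refine Finset.prod_congr rfl fun t _ => ?_
    congr 1
    push_cast
    ring
  have hcl : ∀ b : ZMod p, P (b + (x : ZMod p)) ∣ (p : O) ^ e (b + (x : ZMod p)) * W b := by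
    intro b
    set b' := b + (x : ZMod p) with hb'
    have hq : (p : ℤ) ∣ (x + b.val) - b'.val := by
      rw [← ZMod.intCast_zmod_eq_zero_iff_dvd]
      push_cast
      rw [ZMod.natCast_zmod_val, ZMod.natCast_zmod_val, hb']
      ring
    obtain ⟨q, hq⟩ := hq
    have hWe : W b = ∏ t ∈ range k,
        χ.eval (((1 + b'.val : ℕ) : O) + p * ((t : O) + (q : O))) := by
      refine Finset.prod_congr rfl fun t _ => ?_
      congr 1
      have hq' : ((x : O) + (b.val : O)) - (b'.val : O) = (p : O) * (q : O) := by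
        exact_mod_cast congrArg (Int.cast : ℤ → O) hq
      push_cast
      linear_combination hq'
    by_cases hd : (p : O) ∣ χ.eval ((1 + b'.val : ℕ) : O)
    · have he' : e b' = χ.natDegree * c := by simp only [he, if_pos hd]
      rw [he', hWe, hPe]
      refine h.cls hχ hk (fun t ht => ?_) q
      have ht' := mem_range.mp ht
      have hb := ZMod.val_lt b'
      have := h1 (1 + (b'.val + p * t)) (mem_Icc.mpr ⟨by omega, by
        calc 1 + (b'.val + p * t) ≤ p + p * t := by omega
          _ = p * (t + 1) := by ring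
          _ ≤ p * k := Nat.mul_le_mul_left _ ht'⟩)
      convert this using 2
      push_cast
      ring
    · have he' : e b' = 0 := by simp only [he, if_neg hd]
      rw [he', pow_zero, one_mul]
      refine IsUnit.dvd ?_
      rw [hPe]
      refine Finset.prod_induction _ IsUnit (fun _ _ => IsUnit.mul) isUnit_one ?_
      intro t _
      apply h.mx
      intro hcon
      apply hd
      have h2 : (p : O) ∣ χ.eval (((1 + b'.val : ℕ) : O) + p * (t : O)) -
          χ.eval (((1 + b'.val : ℕ) : O)) := by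
        refine dvd_trans ?_ (sub_dvd_eval_sub _ _ χ)
        exact ⟨(t : O), by ring⟩
      have h4 := dvd_sub hcon h2
      rwa [sub_sub_cancel] at h4
  have hsum : ∑ b : ZMod p, e b ≤ χ.natDegree * (χ.natDegree * c) := by
    simp only [he]
    rw [← Finset.sum_filter, Finset.sum_const, smul_eq_mul]
    refine Nat.mul_le_mul_right _ ?_
    have hχ' : ¬ C (p : O) ∣ χ := by
      intro hcon
      rw [C_dvd_iff_dvd_coeff] at hcon
      have := hcon χ.natDegree
      rw [coeff_natDegree, hχ.leadingCoeff] at this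
      exact h.nu (isUnit_of_dvd_one this)
    have := h.roots hχ' le_rfl
      ((univ.filter fun b : ZMod p => (p : O) ∣ χ.eval ((1 + b.val : ℕ) : O)).image
        fun b => ((1 + b.val : ℕ) : ℤ)) (by
        intro a ha b hb hab
        obtain ⟨a', ha', rfl⟩ := Finset.mem_image.mp ha
        obtain ⟨b', hb', rfl⟩ := Finset.mem_image.mp hb
        have h3 : (a'.val : ℤ) % p = (b'.val : ℤ) % p := by
          apply Int.emod_eq_emod_iff_emod_sub_eq_zero.mpr
          apply Int.emod_eq_zero_of_dvd
          have e3 : ((1 + a'.val : ℕ) : ℤ) - ((1 + b'.val : ℕ) : ℤ) = a'.val - b'.val := by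
            push_cast; ring
          rwa [e3] at hab
        rw [Int.emod_eq_of_lt (by positivity) (by exact_mod_cast ZMod.val_lt a'),
          Int.emod_eq_of_lt (by positivity) (by exact_mod_cast ZMod.val_lt b')] at h3
        push_cast
        rw [h3]) (by
        intro a ha
        obtain ⟨a', ha', rfl⟩ := Finset.mem_image.mp ha
        have := (mem_filter.mp ha').2
        exact_mod_cast this)
    rwa [Finset.card_image_of_injective] at this
    intro a b hab
    have hab' : ((1 + a.val : ℕ) : ℤ) = ((1 + b.val : ℕ) : ℤ) := hab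
    have : (1 + a.val : ℕ) = 1 + b.val := by exact_mod_cast hab'
    exact ZMod.val_injective p (by omega)
  calc ∏ b, P b = ∏ b, P (b + (x : ZMod p)) :=
        (Equiv.prod_comp (Equiv.addRight (x : ZMod p)) P).symm
    _ ∣ ∏ b, ((p : O) ^ e (b + (x : ZMod p)) * W b) :=
        Finset.prod_dvd_prod_of_dvd _ _ fun b _ => hcl b
    _ = (p : O) ^ (∑ b, e b) * ∏ b, W b := by
        rw [Finset.prod_mul_distrib, Finset.prod_pow_eq_pow_sum]
        congr 2
        exact Equiv.sum_comp (Equiv.addRight (x : ZMod p)) e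
    _ ∣ (p : O) ^ (χ.natDegree * (χ.natDegree * c)) * ∏ b, W b :=
        mul_dvd_mul_right (pow_dvd_pow _ hsum) _

end Pool.H80.CM
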