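import Pool.Agent.H10.CM.PF
import Pool.Agent.H80.CM.Val
import Pool.Agent.H80.CM.Newt

/-! The polynomials of Lemma R. -/

namespace Pool.H80.CM

open Polynomial Finset Pool.CM

section base

variable {X : Idx} {E : Type} [Field E] {A : PF X E}

theorem p_ne (hA : A.Ax) (i : X.I) : ((X.p i : ℕ) : E) ≠ 0 := by
  intro h
  apply hA.p_inv i
  rw [h, inv_zero]
  exact (A.O i).zero_mem

/-- The valuation ring of a place satisfies `Loc`. -/
theorem loc (hA : A.Ax) (i : X.I) : Loc (A.O i) (X.p i) where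
  pr := X.hp i
  ne := by
    intro h
    apply p_ne hA i
    have := congrArg (Subtype.val) h
    simpa using this
  nu := by
    intro h
    obtain ⟨u, hu⟩ := h
    apply hA.p_inv i
    have h1 : (u : A.O i) * (u⁻¹ : (A.O i)ˣ) = 1 := u.mul_inv
    rw [hu] at h1
    have h2 := congrArg Subtype.val h1
    have h3 : ((X.p i : ℕ) : E) * (((u⁻¹ : (A.O i)ˣ) : A.O i) : E) = 1 := by simpa using h2
    rw [← eq_inv_of_mul_eq_one_right h3]
    exact Subtype.property _
  mx := by
    intro x hx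
    have hp0 := p_ne hA i
    have hx0 : (x : E) ≠ 0 := by
      intro h
      apply hx
      have : x = 0 := Subtype.ext h
      rw [this]
      exact dvd_zero _
    obtain ⟨k, hk0, hk1, hk2⟩ := hA.scale i x hx0
    have hpm : ((X.p i : ℕ) : E) ∈ A.O i := natCast_mem _ _
    rcases lt_trichotomy k 0 with hk | hk | hk
    · exfalso
      apply hx
      obtain ⟨m, rfl⟩ : ∃ m : ℕ, k = -((m : ℤ) + 1) := ⟨(-k - 1).toNat, by omega⟩
      refine ⟨⟨(x : E) * ((X.p i : ℕ) : E) ^ (-((m : ℤ) + 1)), hk1⟩ * (X.p i : A.O i) ^ m, ?_⟩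
      apply Subtype.ext
      push_cast
      rw [zpow_neg, zpow_add₀ hp0, zpow_natCast, zpow_one]
      field_simp
    · subst hk
      rw [zpow_zero, mul_one] at hk2
      refine IsUnit.of_mul_eq_one ⟨(x : E)⁻¹, hk2⟩ ?_
      apply Subtype.ext
      push_cast
      exact mul_inv_cancel₀ hx0
    · exfalso
      apply hA.p_inv i
      obtain ⟨m, rfl⟩ : ∃ m : ℕ, k = (m : ℤ) + 1 := ⟨(k - 1).toNat, by omega⟩
      have h1 : ((X.p i : ℕ) : E)⁻¹ =
          x * ((x : E) * ((X.p i : ℕ) : E) ^ ((m : ℤ) + 1))⁻¹ * ((X.p i : ℕ) : E) ^ m := by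
        rw [zpow_add₀ hp0, zpow_natCast, zpow_one]
        field_simp
      rw [h1]
      exact (A.O i).mul_mem ((A.O i).mul_mem x.2 hk2) ((A.O i).pow_mem hpm m)

/-- The elements `y` with `p ^ c * y` integral. -/
def Frac (A : PF X E) (i : X.I) (c : ℕ) : AddSubgroup E where
  carrier := {y | ((X.p i : ℕ) : E) ^ c * y ∈ A.O i}
  add_mem' := by
    intro x y hx hy
    simp only [Set.mem_ofPred_eq] at *
    rw [mul_add]
    exact (A.O i).add_mem hx hy
  zero_mem' := by simp [(A.O i).zero_mem]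
  neg_mem' := by
    intro x hx
    simp only [Set.mem_ofPred_eq] at *
    rw [mul_neg]
    exact (A.O i).neg_mem hx

theorem nat_inv_mem (hA : A.Ax) (i : X.I) [CharZero E] {m : ℕ} (h0 : m ≠ 0)
    (hm : m < X.p i ^ 2) : ((X.p i : ℕ) : E) * ((m : E))⁻¹ ∈ A.O i := by
  have hp0 := p_ne hA i
  by_cases h : X.p i ∣ m
  · obtain ⟨n, rfl⟩ := h
    have hn : ¬ X.p i ∣ n := by
      intro hcon
      have h1 : n ≠ 0 := by rintro rfl; simp at h0
      have h2 : X.p i ≤ n := Nat.le_of_dvd (Nat.pos_of_ne_zero h1) hcon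
      have := Nat.mul_le_mul_left (X.p i) h2
      rw [pow_two] at hm
      omega
    have := hA.pol_O i 0 _ (hA.pol_inv i n hn)
    have e : ((X.p i : ℕ) : E) * (((X.p i * n : ℕ) : E))⁻¹ = ((n : E))⁻¹ := by
      push_cast
      have hn0 : (n : E) ≠ 0 := by
        intro h
        have : n = 0 := by exact_mod_cast h
        exact hn (this ▸ dvd_zero _)
      field_simp
    rw [e]
    exact this
  · exact (A.O i).mul_mem (natCast_mem _ _) (hA.pol_O i 0 _ (hA.pol_inv i m h))

end base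

variable {X : Idx} {E : Type} [Field E] [CharZero E] {A : PF X E}

/-- The polynomials of Lemma R: `1 = A * U + W * T ^ r`, `A = ∏ χ (T + l)`, and the coefficients
of `W` in the basis `binom(T, j)` have bounded denominators. -/
theorem poly (hA : A.Ax) (χ : E[X]) (hm : χ.Monic) (hχ : ∀ n : ℕ, 1 ≤ n → χ.eval (n : E) ≠ 0)
    (r : ℕ) : ∃ c : ℕ, ∀ k : ℕ, X.Ev fun i => ∃ U W : E[X], ∃ a : ℕ → E,
      (∏ l ∈ Icc 1 (X.p i * k), χ.comp (Polynomial.X + C (l : E))) * U +
        W * Polynomial.X ^ r = 1 ∧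
      W = ∑ j ∈ range (r * (χ.natDegree * (X.p i * k)) + 1), C (a j) * bp E j ∧
      ∀ j ≤ r * (χ.natDegree * (X.p i * k)), ((X.p i : ℕ) : E) ^ c * a j ∈ A.O i := by
  classical
  obtain ⟨c1, hc1⟩ := hA.pf4 χ hm.ne_zero
  set N := χ.natDegree with hN
  refine ⟨r * (N * (N * c1) + 1), fun k => ?_⟩
  have hcoef : X.Ev fun i => ∀ n ∈ χ.support, χ.coeff n ∈ A.O i := by
    refine Idx.Ev.allFinset χ.support (fun n hn => ?_)
    refine (hA.pf2 (χ.coeff n) (mem_support_iff.mp hn)).mono fun i hi => hi.2.1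
  refine ((hcoef.and (hc1 k)).and (Idx.Ev.large (k + (r * (N * k) + 2)))).mono ?_
  rintro i ⟨⟨hco, hpf⟩, hlarge⟩
  set p := X.p i with hp
  have hp0 : (p : E) ≠ 0 := p_ne hA i
  have hL := loc hA i
  -- `χ` over the valuation ring
  have hlift : ∃ χ' : Polynomial (A.O i), χ'.map (A.O i).subtype = χ ∧ χ'.Monic ∧
      χ'.natDegree = N := by
    have h1 : χ ∈ Polynomial.lifts (A.O i).subtype := by
      rw [Polynomial.lifts_iff_coeff_lifts]
      intro n
      by_cases hn : n ∈ χ.support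
      · exact ⟨⟨χ.coeff n, hco n hn⟩, rfl⟩
      · rw [notMem_support_iff.mp hn]
        exact ⟨0, by simp⟩
    obtain ⟨q, hq, hqd, hqm⟩ := Polynomial.lifts_and_natDegree_eq_and_monic h1 hm
    exact ⟨q, hq, hqm, hqd⟩
  obtain ⟨χ', hχ', hχm, hχd⟩ := hlift
  have hev : ∀ y : A.O i, ((χ'.eval y : A.O i) : E) = χ.eval (y : E) := by
    intro y
    rw [← hχ', eval_map]
    exact (eval₂_at_apply (A.O i).subtype y).symm
  set a0 : E := ∏ l ∈ Icc 1 (p * k), χ.eval (l : E) with ha0
  have ha0n : a0 ≠ 0 := Finset.prod_ne_zero_iff.mpr fun l hl => hχ l (mem_Icc.mp hl).1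
  set P : E[X] := ∏ l ∈ Icc 1 (p * k), χ.comp (Polynomial.X + C (l : E)) with hP
  have hPdeg : P.natDegree ≤ N * (p * k) := by
    refine (natDegree_prod_le _ _).trans ?_
    refine (Finset.sum_le_card_nsmul _ _ N fun l _ => ?_).trans ?_
    · rw [natDegree_comp, natDegree_X_add_C, mul_one]
    · rw [Nat.card_Icc, smul_eq_mul]
      simp [mul_comm]
  have hPe : ∀ x : E, P.eval x = ∏ l ∈ Icc 1 (p * k), χ.eval (x + (l : E)) := by
    intro x
    rw [hP, eval_prod]
    refine Finset.prod_congr rfl fun l _ => ?_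
    rw [eval_comp]
    simp
  set Q : E[X] := C a0⁻¹ * P with hQ
  have hQ0 : Q.eval 0 = 1 := by
    rw [hQ, eval_mul, eval_C, hPe]
    simp only [zero_add]
    exact inv_mul_cancel₀ ha0n
  have hdvd : Polynomial.X ∣ 1 - Q := by
    rw [X_dvd_iff, coeff_zero_eq_eval_zero, eval_sub, eval_one, hQ0, sub_self]
  obtain ⟨T, hT⟩ := hdvd
  have hU : ∃ U : E[X], 1 - (1 - Q) ^ r = Q * U := by
    have := sub_dvd_pow_sub_pow (1 : E[X]) (1 - Q) r
    rw [one_pow, sub_sub_cancel] at this
    exact this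
  obtain ⟨U, hU⟩ := hU
  set W : E[X] := T ^ r with hW
  have hTdeg : T.natDegree ≤ N * (p * k) := by
    have h1 : (1 - Q).natDegree ≤ N * (p * k) := by
      refine (natDegree_sub_le _ _).trans (max_le ?_ ?_)
      · simp
      · exact (natDegree_C_mul_le _ _).trans hPdeg
    by_cases hT0 : T = 0
    · rw [hT0]; simp
    · rw [hT, natDegree_mul X_ne_zero hT0, natDegree_X] at h1
      omega
  have hWdeg : W.natDegree ≤ r * (N * (p * k)) :=
    (natDegree_pow_le).trans (Nat.mul_le_mul_left _ hTdeg)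
  have hval : ∀ m : ℕ, 1 ≤ m → m ≤ r * (N * (p * k)) + 1 →
      W.eval (m : E) ∈ Frac A i (r * (N * (N * c1) + 1)) := by
    intro m hm1 hm2
    have hm0 : (m : E) ≠ 0 := by exact_mod_cast (by omega : m ≠ 0)
    have hmlt : m < p ^ 2 := by
      have h1 : r * (N * (p * k)) + 1 = p * (r * (N * k)) + 1 := by ring
      have h2 : p * (r * (N * k)) + 1 < p * p := by
        have h3 : r * (N * k) + 1 ≤ p := by omega
        have h4 := Nat.mul_le_mul_left p h3
        have h5 : p * (r * (N * k) + 1) = p * (r * (N * k)) + p := by ring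
        have h6 : 1 < p := (X.hp i).one_lt
        omega
      rw [pow_two]
      omega
    have hQm : ((p : ℕ) : E) ^ (N * (N * c1)) * Q.eval (m : E) ∈ A.O i := by
      have hv := hL.val hχm (c := c1) (k := k) (by omega) (by
        intro l hl
        have hl' := mem_Icc.mp hl
        have h1 := hpf (l : ℤ) (by
          rw [abs_of_nonneg (by positivity)]
          have : (l : ℤ) ≤ (p * k : ℕ) := by exact_mod_cast hl'.2
          push_cast at this
          linarith [mul_comm (p : ℤ) (k : ℤ)]) (by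
          have := hχ l hl'.1
          simpa using this)
        refine ⟨⟨_, h1⟩, ?_⟩
        apply Subtype.ext
        push_cast
        have h2 := hev (l : A.O i)
        push_cast at h2
        rw [h2]
        have h3 := hχ l hl'.1
        field_simp
        rw [hp]) (m : ℤ)
      obtain ⟨y, hy⟩ := hv
      have hy' := congrArg (Subtype.val) hy
      push_cast at hy'
      simp only [hev] at hy'
      push_cast at hy'
      rw [hχd] at hy'
      rw [hQ, eval_mul, eval_C, hPe]
      have : ((p : ℕ) : E) ^ (N * (N * c1)) *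
          (a0⁻¹ * ∏ l ∈ Icc 1 (p * k), χ.eval ((m : E) + (l : E))) = (y : E) := by
        rw [mul_left_comm, hy', ← mul_assoc, inv_mul_cancel₀ ha0n, one_mul]
      rw [this]
      exact y.2
    have hTm : ((p : ℕ) : E) ^ (N * (N * c1) + 1) * T.eval (m : E) ∈ A.O i := by
      have h1 := congrArg (fun q => q.eval (m : E)) hT
      simp only [eval_sub, eval_one, eval_mul, eval_X] at h1
      have h2 : T.eval (m : E) = (m : E)⁻¹ * (1 - Q.eval (m : E)) := by
        rw [h1, ← mul_assoc, inv_mul_cancel₀ hm0, one_mul]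
      have h3 : ((p : ℕ) : E) ^ (N * (N * c1) + 1) * T.eval (m : E) =
          (((p : ℕ) : E) * (m : E)⁻¹) * (((p : ℕ) : E) ^ (N * (N * c1)) -
            ((p : ℕ) : E) ^ (N * (N * c1)) * Q.eval (m : E)) := by
        rw [h2]; ring
      rw [h3]
      refine (A.O i).mul_mem (nat_inv_mem hA i (by omega) hmlt) ((A.O i).sub_mem ?_ hQm)
      exact (A.O i).pow_mem (natCast_mem _ _) _
    change ((p : ℕ) : E) ^ (r * (N * (N * c1) + 1)) * W.eval (m : E) ∈ A.O i
    rw [hW, eval_pow, mul_comm r, pow_mul, ← mul_pow]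
    exact (A.O i).pow_mem hTm r
  obtain ⟨a, ha, haW⟩ := newt1 (Frac A i (r * (N * (N * c1) + 1))) (r * (N * (p * k))) W hWdeg hval
  refine ⟨C a0⁻¹ * U, W, a, ?_, haW, fun j hj => ha j hj⟩
  have h1 : W * Polynomial.X ^ r = (1 - Q) ^ r := by
    rw [hT, mul_pow, hW]; ring
  rw [h1]
  have h2 : P * (C a0⁻¹ * U) = Q * U := by rw [hQ]; ring
  rw [h2, ← hU]
  ring

end Pool.H80.CM
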