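import Pool.Agent.H80.CM.Newt

/-! Falling factorials modulo `p`, and integrality of `binom(m + p X, j)` for `j < p ^ 2`. -/

namespace Pool.H80.CM

open Polynomial Finset

theorem desc_zmod (p : ℕ) [Fact p.Prime] : descPochhammer (ZMod p) p = X ^ p - X := by
  classical
  have hp1 : 1 < p := (Fact.out : p.Prime).one_lt
  have hm2 : (X ^ p - X : (ZMod p)[X]).Monic := by
    have := monic_X_pow_sub (n := p) (p := (X : (ZMod p)[X])) (by
      rw [degree_X]; exact_mod_cast hp1)
    exact this
  have hd1 : (descPochhammer (ZMod p) p).degree = (p : ℕ) := by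
    rw [degree_eq_natDegree (monic_descPochhammer (ZMod p) p).ne_zero, descPochhammer_natDegree]
  have hd2 : (X ^ p - X : (ZMod p)[X]).degree = (p : ℕ) := by
    rw [degree_eq_natDegree hm2.ne_zero, FiniteField.X_pow_card_sub_X_natDegree_eq _ hp1]
  refine eq_of_degree_sub_lt_of_eval_finset_eq (Finset.univ : Finset (ZMod p)) ?_ ?_
  · rw [Finset.card_univ, ZMod.card]
    refine lt_of_lt_of_le (degree_sub_lt_left (hd1.trans hd2.symm)
      (monic_descPochhammer (ZMod p) p).ne_zero ?_) hd1.le
    rw [(monic_descPochhammer (ZMod p) p).leadingCoeff, hm2.leadingCoeff]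
  · intro x _
    rw [descPochhammer_eval_eq_prod_range, eval_sub, eval_pow, eval_X, ZMod.pow_card, sub_self]
    refine Finset.prod_eq_zero (mem_range.mpr (ZMod.val_lt x)) ?_
    rw [ZMod.natCast_zmod_val, sub_self]

theorem desc_zmod_mul (p : ℕ) [Fact p.Prime] (k : ℕ) :
    descPochhammer (ZMod p) (p * k) = (X ^ p - X) ^ k := by
  induction k with
  | zero => simp
  | succ k ih =>
    have h := descPochhammer_mul (ZMod p) p (p * k)
    have hX : (X - ((p : ℕ) : (ZMod p)[X])) = X := by
      have : ((p : ℕ) : (ZMod p)[X]) = C ((p : ℕ) : ZMod p) := by simp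
      rw [this, ZMod.natCast_self, C_0, sub_zero]
    rw [hX, comp_X, ih, desc_zmod] at h
    rw [mul_add, mul_one, add_comm, ← h, pow_succ]
    ring

/-- LEMMA CNG. -/
theorem cng (p : ℕ) [Fact p.Prime] (k : ℕ) :
    ∃ Q : ℤ[X], descPochhammer ℤ (p * k) = (X ^ p - X) ^ k + C (p : ℤ) * Q := by
  have h : (C (p : ℤ)) ∣ descPochhammer ℤ (p * k) - (X ^ p - X) ^ k := by
    rw [C_dvd_iff_dvd_coeff]
    intro i
    rw [← ZMod.intCast_zmod_eq_zero_iff_dvd]
    have : ((descPochhammer ℤ (p * k) - (X ^ p - X) ^ k).map (Int.castRingHom (ZMod p))) = 0 := by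
      rw [Polynomial.map_sub, descPochhammer_map, desc_zmod_mul]
      simp
    have h2 := congrArg (fun q => q.coeff i) this
    simp only [coeff_map, coeff_zero] at h2
    exact h2
  obtain ⟨Q, hQ⟩ := h
  exact ⟨Q, by rw [← hQ]; ring⟩

theorem fact_split {p : ℕ} [hp : Fact p.Prime] {j : ℕ} (hj : j < p ^ 2) :
    ∃ u : ℕ, ¬ p ∣ u ∧ j.factorial = p ^ (j / p) * u := by
  have h1 : padicValNat p j.factorial = j / p := by
    have hlog : Nat.log p j < 2 := by
      rcases Nat.eq_zero_or_pos j with h | h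
      · subst h; simp
      · exact Nat.log_lt_of_lt_pow h.ne' hj
    rw [padicValNat_factorial hlog]
    simp
  obtain ⟨m, n, hn, hm⟩ := Nat.exists_eq_pow_mul_and_not_dvd (Nat.factorial_ne_zero j) p
    hp.out.ne_one
  refine ⟨n, hn, ?_⟩
  have h2 : padicValNat p j.factorial = m := by
    rw [hm, padicValNat.mul (pow_ne_zero _ hp.out.ne_zero) (by rintro rfl; exact hn (dvd_zero p)),
      padicValNat.prime_pow, padicValNat.eq_zero_of_not_dvd hn, add_zero]
  rw [hm]
  congr 2
  rw [← h2, h1]

/-- LEMMA BPX: `binom(m + p X, j)` has coefficients in `O` for `j < p ^ 2`. -/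
theorem bpx {K : Type*} [Field K] [CharZero K] {p : ℕ} [hp : Fact p.Prime] (O : Subring K)
    (hO : ∀ d : ℕ, ¬ p ∣ d → ((d : K))⁻¹ ∈ O) {j m : ℕ} (hj : j < p ^ 2) :
    ∃ q : Polynomial O, q.map O.subtype = (bp K j).comp (C (m : K) + C (p : K) * X) := by
  classical
  have hpos : 0 < p := hp.out.pos
  -- the factors
  have hfac : ∀ i : ℕ, ∃ r : Polynomial O,
      r.map O.subtype * C (if i ≡ m [MOD p] then (p : K) else 1) =
        C (m : K) + C (p : K) * X - C (i : K) := by
    intro i
    split_ifs with h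
    · have hd : (p : ℤ) ∣ (m : ℤ) - i := (Nat.modEq_iff_dvd.mp h)
      obtain ⟨e, he⟩ := hd
      refine ⟨X + C (e : O), ?_⟩
      have he' : (m : K) - (i : K) = (p : K) * (e : K) := by exact_mod_cast congrArg (Int.cast : ℤ → K) he
      rw [Polynomial.map_add, map_X, map_C]
      have : O.subtype (e : O) = (e : K) := by simp
      rw [this]
      have e2 : (C (m : K) : K[X]) = C (i : K) + C (p : K) * C (e : K) := by
        rw [← C_mul, ← C_add]
        congr 1
        linear_combination he'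
      rw [e2]
      ring
    · refine ⟨C (m : O) + C (p : O) * X - C (i : O), ?_⟩
      simp
  choose r hr using hfac
  have hprod : (bp K j).comp (C (m : K) + C (p : K) * X) =
      C ((j.factorial : K)⁻¹) * ∏ i ∈ range j, (C (m : K) + C (p : K) * X - C (i : K)) := by
    rw [bp, mul_comp, C_comp]
    congr 1
    have : descPochhammer K j = ∏ i ∈ range j, (X - C (i : K)) := by
      induction j with
      | zero => simp
      | succ j ih =>
        rw [descPochhammer_succ_right, ih (by omega), Finset.prod_range_succ]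
        congr 2
    rw [this, Polynomial.prod_comp]
    refine Finset.prod_congr rfl fun i _ => ?_
    simp
  have hcount : ∃ c : ℕ, j / p ≤ c ∧
      ∏ i ∈ range j, (if i ≡ m [MOD p] then (p : K) else 1) = (p : K) ^ c := by
    refine ⟨((range j).filter fun i => i ≡ m [MOD p]).card, ?_, ?_⟩
    · rw [← Nat.count_eq_card_filter_range, Nat.count_modEq_card j hpos m]
      exact Nat.le_add_right _ _
    · rw [← Finset.prod_filter, Finset.prod_const]
  obtain ⟨c, hc, hcp⟩ := hcount
  obtain ⟨u, hu, hfact⟩ := fact_split hj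
  have hpK : (p : K) ≠ 0 := by exact_mod_cast hp.out.ne_zero
  refine ⟨C (⟨(u : K)⁻¹, hO u hu⟩ * (p : O) ^ (c - j / p)) * ∏ i ∈ range j, r i, ?_⟩
  rw [hprod, Polynomial.map_mul, map_C, Polynomial.map_prod]
  have h3 : ∏ i ∈ range j, (C (m : K) + C (p : K) * X - C (i : K)) =
      (∏ i ∈ range j, (r i).map O.subtype) * C ((p : K) ^ c) := by
    rw [← hcp, map_prod, ← Finset.prod_mul_distrib]
    exact Finset.prod_congr rfl fun i _ => (hr i).symm
  rw [h3, mul_left_comm, ← C_mul, mul_comm]
  congr 2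
  rw [hfact, map_mul, map_pow]
  have h4 : O.subtype (p : O) = (p : K) := by simp
  rw [h4]
  have h5 : O.subtype ⟨(u : K)⁻¹, hO u hu⟩ = (u : K)⁻¹ := rfl
  rw [h5]
  push_cast
  have h6 : (p : K) ^ c = (p : K) ^ (c - j / p) * (p : K) ^ (j / p) := by
    rw [← pow_add, Nat.sub_add_cancel hc]
  rw [h6, mul_inv]
  have h7 : (p : K) ^ (j / p) ≠ 0 := pow_ne_zero _ hpK
  field_simp

end Pool.H80.CM
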